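import Pool.Agent.T9h36.N1.Fin

/-!
# Project NK, slope 1: the step with better numbers
-/

set_option autoImplicit false

open Set
open scoped RealInnerProductSpace

namespace Pool.Agent.T9h36.N1

open Pool.Agent.T9h98.DC Pool.Agent.T9h98.NK Pool.Agent.T9h44.NK Pool.Agent.T9h46.NK

/-- the figure at a neighbour -/
def Alt (b L N : ℕ) : Prop :=
  (b = 1) ∨ ∃ N₁, 9 ≤ N₁ ∧ N₁ + L ≤ N ∧ 14 ≤ N ∧ MK b N₁

theorem st2 (hF : S_FACES) (hVF : S_VF) (hI : S_INV) (hO : S_IOTA) (hNB : S_NB) (hT : S_TR)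
    (hM : S_MONO) (hS : S_STEP) (hCO : S_CONN) (hLC : S_LOCC) (h1 : S_N1) (h4 : S_N4)
    (h5 : S_N5) (h6 : S_N6) (a₀ b N L N₀ : ℕ) (hN9 : 9 ≤ N) (hLN : L ≤ N) (hN0 : N₀ ≤ N) (hLL : LLG (L + 1) N₀)
    (hMK : MK a₀ N) (hMNT : MNT (a₀ + b) N) (hb : Alt b L N) : MNT (a₀ + b + 1) (N + 1) := by
  intro n hn P H hP hH hFew hNT
  obtain ⟨m, rfl⟩ : ∃ m, n = m + 1 := ⟨n - 1, by omega⟩
  apply hS (m + 1) P H (by omega) hP hH
  intro w hw
  obtain ⟨a, ι, hD⟩ := dat hI hO hP hH w hw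
  have hD' := hD
  obtain ⟨-, hs, ha, hι, hfix⟩ := hD'
  refine ⟨a, ι, hs, ha, hι, hfix, ?_⟩
  by_contra hnot
  have hex : ∀ v, Vx P v → ∃ u, Vx P u ∧ ∀ h ∈ H, h v ≠ u := by
    intro v _
    by_contra hcon
    push Not at hcon
    obtain ⟨v₀, w₀, hv₀, hw₀, hne⟩ := hNT
    obtain ⟨g1, hg1, e1⟩ := hcon v₀ hv₀
    obtain ⟨g2, hg2, e2⟩ := hcon w₀ hw₀
    apply hne (g2 * g1⁻¹) (H.mul_mem hg2 (H.inv_mem hg1))
    change g2 (g1.symm v₀) = w₀
    rw [← e1, g1.symm_apply_apply, e2]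
  obtain ⟨t1, -, -, -, t5⟩ := hT (m + 1) P H w a ι hP hH hw hs ha hι hfix
  have hfig := (hVF (m + 1) P w a ι hP hw hs ha hι).1
  have hFw := t5 (a₀ + b) hFew (hex w hw)
  have hP1 : PT 1 (figH H w ι) (fig w a ι P) := by
    refine pt_one hF hfig ?_
    by_contra hcon
    push Not at hcon
    obtain ⟨x, y, hx, hy, hxy⟩ := hcon
    exact hnot (hMNT m (by omega) _ _ hfig t1 hFw ⟨x, y, hx, hy, hxy⟩)
  -- a neighbour
  obtain ⟨v, hwv⟩ : ∃ v, Adj P w v := by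
    obtain ⟨-, n2, -, -⟩ := hNB (m + 1) P w a ι hP hw hs ha hι
    obtain ⟨-, -, -, -, f5, -⟩ := hF (m + 1) _ hfig.1
    obtain ⟨-, x, hx⟩ := f5 (hfig.2.mono interior_subset)
    obtain ⟨y, hy, -⟩ := n2 x hx
    exact ⟨y, hy⟩
  obtain ⟨-, -, -, -, -, -, -, -, f9, -⟩ := hF (m + 1 + 1) P hP.1
  have hv : Vx P v := (f9 w v hwv).2.1
  have hvw : ∀ h ∈ H, h v ≠ w := by
    intro h hh e
    obtain ⟨v₀, w₀, hv₀, hw₀, hne⟩ := hNT
    have hcl : ∀ u, Vx P u → u ∈ {u | ∃ g ∈ H, g w = u} := by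
      refine hCO (m + 1) P hP _ ⟨w, ⟨1, H.one_mem, rfl⟩, hw⟩ ?_
      rintro u ⟨g, hg, rfl⟩ y _ hy
      have hy2 : Adj P w (g⁻¹ y) := by
        have := adj_image (g⁻¹) (hH _ (H.inv_mem hg)) hy
        have e2 : (g⁻¹ : E (m + 1 + 1) ≃ₗᵢ[ℝ] E (m + 1 + 1)) (g w) = w := g.symm_apply_apply w
        rwa [e2] at this
      obtain ⟨q, hq, -, hqv⟩ := nb_trans hNB hP hH hD hP1 v (g⁻¹ y) hwv hy2
      refine ⟨g * (q * h⁻¹), H.mul_mem hg (H.mul_mem hq (H.inv_mem hh)), ?_⟩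
      change g (q (h.symm w)) = y
      rw [← e, h.symm_apply_apply, hqv]
      exact g.apply_symm_apply y
    obtain ⟨g1, hg1, e1⟩ := hcl v₀ hv₀
    obtain ⟨g2, hg2, e2⟩ := hcl w₀ hw₀
    apply hne (g2 * g1⁻¹) (H.mul_mem hg2 (H.inv_mem hg1))
    change g2 (g1.symm v₀) = w₀
    rw [← e1, g1.symm_apply_apply, e2]
  obtain ⟨a', ι', hDv⟩ := dat hI hO hP hH v hv
  have hDv' := hDv
  obtain ⟨-, hs', ha', hι', hfix'⟩ := hDv'
  obtain ⟨t1', -, -, -, t5'⟩ := hT (m + 1) P H v a' ι' hP hH hv hs' ha' hι' hfix'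
  have hfig' := (hVF (m + 1) P v a' ι' hP hv hs' ha' hι').1
  have hFv : Few b (figH H v ι') (fig v a' ι' P) := by
    have hnF : ¬ Few a₀ (figH H w ι) (fig w a ι P) := fun hf =>
      hnot (hMK m (by omega) _ _ hfig t1 hf)
    refine h1 (m + 1) P H v a' w a ι' ι b a₀ hP hH hDv hD hvw ?_ hnF
    have : b + a₀ + 1 = a₀ + b + 1 := by omega
    rw [this]
    exact hFew
  have hPv : PT (L + 1) (figH H v ι') (fig v a' ι' P) := by
    rcases hb with hb | ⟨N₁, hN19, hN1, hN14, hML⟩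
    · rw [hb] at hFv
      exact hM m _ _ (L + 1) (m + 1) hfig' (by omega) le_rfl (pt_of_few_one hFv)
    · have hGv : Good (fig v a' ι' P) (figH H v ι') := hML m (by omega) _ _ hfig' t1' hFv
      have hcases : RegS (fig v a' ι' P) ∨ RegO (fig v a' ι' P) := by
        rcases hGv.1 with h | h | h
        · exact Or.inl h
        · exact Or.inr h
        · exfalso
          obtain ⟨g, hg⟩ := hLC (m + 1) P H v a' ι' (by omega) hP hH hv ⟨hs', ha', hι', hfix', hGv⟩ h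
          exact h6 (m + 1) P H w a v ι g (by omega) hP hH hD hwv hg hP1
      exact h4 b N₁ hN19 hML L m (by omega) _ _ hfig' t1' hFv hcases
  have hPw := h5 (m + 1) P H v a' w a ι' ι L hP hH hDv hD hwv hPv hP1
  have hR : Reg (fig w a ι P) := hLL m (by omega) _ _ hfig t1 hPw
  refine hnot ⟨hR, fun x y y' hy hy' => ?_⟩
  obtain ⟨-, -, -, -, -, -, -, -, g9, -⟩ := hF (m + 1) _ hfig.1
  exact vtrans hP1 y y' (g9 x y hy).2.1 (g9 x y' hy').2.1


/-- `PT 4` is enough in dimension at least 11 -/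
theorem numbers (hF : S_FACES) (hVF : S_VF) (hI : S_INV) (hO : S_IOTA) (hNB : S_NB) (hT : S_TR)
    (hM : S_MONO) (hS : S_STEP) (hCO : S_CONN) (hLC : S_LOCC) (h1 : S_N1) (h4 : S_N4)
    (h5 : S_N5) (h6 : S_N6) (hUP : S_UP) (hLL : LLG 4 10) (hM1 : MK 1 9) :
    MNT 2 10 ∧ MNT 3 11 ∧ MNT 4 14 ∧ MNT 5 15 ∧ ∀ j, MNT (j + 6) (j + 17) := by
  have st := st2 hF hVF hI hO hNB hT hM hS hCO hLC h1 h4 h5 h6
  have up : ∀ k N, 9 ≤ N → MNT k N → MK k (N + 3) := fun k N h9 h =>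
    hUP k N 3 10 h9 hLL (by omega) h
  -- k = 2
  have m2 : MNT 2 10 := by
    intro n hn P H hP hH hFew hNT
    obtain ⟨m, rfl⟩ : ∃ m, n = m + 1 := ⟨n - 1, by omega⟩
    apply hS (m + 1) P H (by omega) hP hH
    intro w hw
    obtain ⟨a, ι, hD⟩ := dat hI hO hP hH w hw
    obtain ⟨-, hs, ha, hι, hfix⟩ := hD
    refine ⟨a, ι, hs, ha, hι, hfix, ?_⟩
    obtain ⟨t1, -, -, -, t5⟩ := hT (m + 1) P H w a ι hP hH hw hs ha hι hfix
    have hfig := (hVF (m + 1) P w a ι hP hw hs ha hι).1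
    refine hM1 m (by omega) _ _ hfig t1 (t5 1 hFew ?_)
    by_contra hcon
    push Not at hcon
    obtain ⟨v₀, w₀, hv₀, hw₀, hne⟩ := hNT
    obtain ⟨g1, hg1, e1⟩ := hcon v₀ hv₀
    obtain ⟨g2, hg2, e2⟩ := hcon w₀ hw₀
    apply hne (g2 * g1⁻¹) (H.mul_mem hg2 (H.inv_mem hg1))
    change g2 (g1.symm v₀) = w₀
    rw [← e1, g1.symm_apply_apply, e2]
  have k2 : MK 2 13 := up 2 10 (by norm_num) m2
  have m3 : MNT 3 11 := st 1 1 10 3 10 (by norm_num) (by norm_num) (by norm_num) hLL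
    (mk_mono le_rfl (by norm_num) hM1) m2 (Or.inl rfl)
  have k3 : MK 3 14 := up 3 11 (by norm_num) m3
  have mn : ∀ {k N N' : ℕ}, N ≤ N' → MNT k N → MNT k N' := fun h h' n hn => h' n (h.trans hn)
  have m4 : MNT 4 14 := st 2 1 13 3 10 (by norm_num) (by norm_num) (by norm_num) hLL k2
    (mn (by norm_num) m3) (Or.inl rfl)
  have k4 : MK 4 17 := up 4 14 (by norm_num) m4
  have m5 : MNT 5 15 := st 3 1 14 3 10 (by norm_num) (by norm_num) (by norm_num) hLL k3 m4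
    (Or.inl rfl)
  have k5 : MK 5 18 := up 5 15 (by norm_num) m5
  have alt2 : ∀ N, 16 ≤ N → Alt 2 3 N := fun N hN => Or.inr ⟨13, by norm_num, by omega, by omega, k2⟩
  have alt3 : ∀ N, 17 ≤ N → Alt 3 3 N := fun N hN => Or.inr ⟨14, by norm_num, by omega, by omega, k3⟩
  have m6 : MNT 6 17 := st 3 2 16 3 10 (by norm_num) (by norm_num) (by norm_num) hLL
    (mk_mono le_rfl (by norm_num) k3) (mn (by norm_num) m5) (alt2 16 le_rfl)
  refine ⟨m2, m3, m4, m5, fun j => ?_⟩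
  induction j using Nat.strong_induction_on with
  | _ j ih =>
    rcases Nat.eq_zero_or_pos j with rfl | hj
    · exact m6
    · obtain ⟨i, rfl⟩ : ∃ i, j = i + 1 := ⟨j - 1, by omega⟩
      -- from MNT (i + 6) (i + 17) to MNT (i + 7) (i + 18)
      have hka : MK (i + 3) (i + 17) := by
        rcases i with _ | _ | _ | i
        · exact mk_mono le_rfl (by norm_num) k3
        · exact mk_mono le_rfl (by norm_num) k4
        · exact mk_mono le_rfl (by norm_num) k5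
        · exact mk_mono le_rfl (by omega) (up (i + 6) (i + 17) (by omega) (ih i (by omega)))
      exact st (i + 3) 3 (i + 17) 3 10 (by omega) (by omega) (by omega) hLL hka (ih i (by omega))
        (alt3 (i + 17) (by omega))

/-- at most `k` orbits and dimension at least `k + 15` -/
theorem mk15 (hF : S_FACES) (hVF : S_VF) (hI : S_INV) (hO : S_IOTA) (hNB : S_NB) (hT : S_TR)
    (hM : S_MONO) (hS : S_STEP) (hCO : S_CONN) (hLC : S_LOCC) (h1 : S_N1) (h4 : S_N4)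
    (h5 : S_N5) (h6 : S_N6) (hUP : S_UP) (hLL : LLG 4 10) (hM1 : MK 1 9) :
    MK 4 17 ∧ MK 5 18 ∧ ∀ k, MK k (k + 14) := by
  obtain ⟨m2, m3, m4, m5, m6⟩ := numbers hF hVF hI hO hNB hT hM hS hCO hLC h1 h4 h5 h6 hUP hLL hM1
  have up : ∀ k N, 9 ≤ N → MNT k N → MK k (N + 3) := fun k N h9 h =>
    hUP k N 3 10 h9 hLL (by omega) h
  refine ⟨up 4 14 (by norm_num) m4, up 5 15 (by norm_num) m5, fun k => ?_⟩
  rcases k with _ | _ | _ | _ | _ | _ | k
  · exact mk_mono (by norm_num) (by norm_num) hM1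
  · exact mk_mono le_rfl (by norm_num) hM1
  · exact mk_mono le_rfl (by norm_num) (up 2 10 (by norm_num) m2)
  · exact mk_mono le_rfl (by norm_num) (up 3 11 (by norm_num) m3)
  · exact mk_mono le_rfl (by norm_num) (up 4 14 (by norm_num) m4)
  · exact mk_mono le_rfl (by norm_num) (up 5 15 (by norm_num) m5)
  · exact mk_mono le_rfl (by omega) (up (k + 6) (k + 17) (by omega) (m6 k))

/-- the bound -/
theorem fin15 (hTR : S_TRANS) (hONE : S_ONE) (g1 : S_FTS) (g2 : S_FTO) (g3 : S_FTC) (k N d : ℕ)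
    (hk : 2 ≤ k) (hMK : MK k N) (P : Set (E d)) (hP : IsKOrbit k P) : d ≤ N := by
  by_contra hcon
  push Not at hcon
  obtain ⟨n, rfl⟩ : ∃ n, d = n + 1 := ⟨d - 1, by omega⟩
  obtain ⟨P', H, hP', hH, hFew, hReg⟩ := hTR (n + 1) k P hP (by omega)
  have hG := hMK n (by omega) P' H hP' hH hFew
  have hR : FT P := by
    rcases hReg hG.1 with h | h | h
    · exact g1 _ _ h
    · exact g2 _ _ h
    · exact g3 _ _ h
  have := hONE (n + 1) k P hP hR
  omega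

end Pool.Agent.T9h36.N1
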