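import Pool.Agent.T9h44.N1.All
import Pool.Agent.T9h56.N1.N6
import Pool.Agent.T9h36.N1.St2

/-!
# Project NK, slope 1: the bound `d < k + 15`
-/

set_option autoImplicit false

open Set
open scoped RealInnerProductSpace

namespace Pool.Agent.T9h36.N1

open Pool.Agent.T9h98.DC Pool.Agent.T9h98.NK Pool.Agent.T9h44.NK Pool.Agent.T9h46.NK
  Pool.Agent.T9h44.N1

theorem zN6 : S_N6 := Pool.Agent.T9h56.N1.n6 fFaces fVF fNb fCone gEdge
  (Pool.Agent.T9h41.NK.plane fFaces fTwo)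

theorem zM1 : MK 1 9 := m1 fFaces fMono fLL7

theorem zLL : LLG 4 10 := fLLT

theorem zMK : MK 4 17 ∧ MK 5 18 ∧ ∀ k, MK k (k + 14) :=
  mk15 fFaces fVF fInv fIota fNb fTR fMono fStep fConn gLocc gN1 gN4 gN5 zN6 gUp zLL zM1

/-- the bound -/
theorem bound15 (k : ℕ) (hk : 2 ≤ k) (d : ℕ) (P : Set (E d)) (hP : IsKOrbit k P) :
    d < k + 15 ∧ (k = 5 → d < 19) := by
  constructor
  · have := fin15 fTrans fOne fFts fFto fFtc k (k + 14) d hk (zMK.2.2 k) P hP
    omega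
  · rintro rfl
    have := fin15 fTrans fOne fFts fFto fFtc 5 18 d hk zMK.2.1 P hP
    omega

end Pool.Agent.T9h36.N1
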