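import Pool.Agent.T9h36.N1.St

/-!
# Project NK, slope 1: the induction
-/

set_option autoImplicit false

open Set
open scoped RealInnerProductSpace

namespace Pool.Agent.T9h36.N1

open Pool.Agent.T9h98.DC Pool.Agent.T9h98.NK Pool.Agent.T9h44.NK Pool.Agent.T9h46.NK

theorem mnt_of_mk {k N : ℕ} (h : MK k N) : MNT k N :=
  fun n hn P H hP hH hFew _ => h n hn P H hP hH hFew

theorem ind (hST : S_ST) (hUP : S_UP) (L N₀ N₁ M : ℕ) (hL : LLG (L + 1) N₀) (hML : MK L N₁)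
    (h9 : 9 ≤ N₁) (h15 : 15 ≤ M) (hN0 : N₀ ≤ M) (hN1 : N₁ + L ≤ M) :
    ∀ j : ℕ, MNT (L + j) (M + j) := by
  intro j
  induction j using Nat.strong_induction_on with
  | _ j ih =>
    rcases Nat.eq_zero_or_pos j with rfl | hj
    · exact mnt_of_mk (mk_mono le_rfl (by omega) hML)
    · obtain ⟨i, rfl⟩ : ∃ i, j = i + 1 := ⟨j - 1, by omega⟩
      refine hST (L + i) (M + i) L N₀ N₁ (by omega) (by omega) (by omega) h9 hL hML ?_ (ih i (by omega))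
      intro k' _ hk2
      rcases le_or_gt k' L with hkL | hkL
      · exact mk_mono hkL (by omega) hML
      · obtain ⟨r, rfl⟩ : ∃ r, k' = L + r := ⟨k' - L, by omega⟩
        have h1 := hUP (L + r) (M + r) L N₀ (by omega) hL (by omega) (ih r (by omega))
        exact mk_mono le_rfl (by omega) h1

theorem mk1 (hST : S_ST) (hUP : S_UP) (L N₀ N₁ M : ℕ) (hL : LLG (L + 1) N₀) (hML : MK L N₁)
    (h9 : 9 ≤ N₁) (h15 : 15 ≤ M) (hN0 : N₀ ≤ M) (hN1 : N₁ + L ≤ M) (k : ℕ) (hk : L ≤ k) :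
    MK k (M + k) := by
  obtain ⟨r, rfl⟩ : ∃ r, k = L + r := ⟨k - L, by omega⟩
  have h1 := hUP (L + r) (M + r) L N₀ (by omega) hL (by omega)
    (ind hST hUP L N₀ N₁ M hL hML h9 h15 hN0 hN1 r)
  exact mk_mono le_rfl (by omega) h1

/-- the bound -/
theorem fin1 (hTR : S_TRANS) (hONE : S_ONE) (h1 : S_FTS) (h2 : S_FTO) (h3 : S_FTC)
    (hST : S_ST) (hUP : S_UP) (L N₀ N₁ M : ℕ) (hL : LLG (L + 1) N₀) (hML : MK L N₁)
    (h9 : 9 ≤ N₁) (h15 : 15 ≤ M) (hN0 : N₀ ≤ M) (hN1 : N₁ + L ≤ M)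
    (k d : ℕ) (hk : 2 ≤ k) (hLk : L ≤ k) (P : Set (E d)) (hP : IsKOrbit k P) :
    d < k + M + 1 := by
  by_contra hcon
  push Not at hcon
  obtain ⟨n, rfl⟩ : ∃ n, d = n + 1 := ⟨d - 1, by omega⟩
  obtain ⟨P', H, hP', hH, hFew, hReg⟩ := hTR (n + 1) k P hP (by omega)
  have hG := mk1 hST hUP L N₀ N₁ M hL hML h9 h15 hN0 hN1 k hLk n (by omega) P' H hP' hH hFew
  have hR : FT P := by
    rcases hReg hG.1 with h | h | h
    · exact h1 _ _ h
    · exact h2 _ _ h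
    · exact h3 _ _ h
  have := hONE (n + 1) k P hP hR
  omega

end Pool.Agent.T9h36.N1
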