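import Pool.Agent.T9h46.NK.Ind6

/-!
# Project NK, slope 1 (helper36): `d ≤ k + C`

`MNT k N`: `Good` for groups which are not transitive on the vertices. From `MNT (k - 1) N` follows `MNT k (N + 1)`.
-/

set_option autoImplicit false

open Set
open scoped RealInnerProductSpace

namespace Pool.Agent.T9h36.N1

open Pool.Agent.T9h98.DC Pool.Agent.T9h98.NK Pool.Agent.T9h44.NK Pool.Agent.T9h46.NK

/-- the data at a vertex -/
def Dat {d : ℕ} (P : Set (E (d + 1))) (H : Subgroup (E (d + 1) ≃ₗᵢ[ℝ] E (d + 1)))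
    (v n : E (d + 1)) (ι : E d →ₗᵢ[ℝ] E (d + 1)) : Prop :=
  Vx P v ∧ Sup P v n ∧ n ≠ 0 ∧ Ort n ι ∧ ∀ h ∈ H, h v = v → h n = n

/-- not transitive on the vertices -/
def NT {d : ℕ} (P : Set (E d)) (H : Subgroup (E d ≃ₗᵢ[ℝ] E d)) : Prop :=
  ∃ v w, Vx P v ∧ Vx P w ∧ ∀ h ∈ H, h v ≠ w

/-- **N1** (uses `S_FACES`, `S_VF`, `S_SH`; as (iv) of `S_TR`). The orbits are additive: `m + 1` inequivalent flags of the
figure at `w` and `k + 1` inequivalent flags of the figure at `v` would give `k + m + 2` inequivalent flags of `P`. -/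
def S_N1 : Prop := ∀ (d : ℕ) (P : Set (E (d + 1))) (H : Subgroup (E (d + 1) ≃ₗᵢ[ℝ] E (d + 1)))
    (v n w n' : E (d + 1)) (ι ι' : E d →ₗᵢ[ℝ] E (d + 1)) (k m : ℕ),
  IsPolytope P → Pres H P → Dat P H v n ι → Dat P H w n' ι' → (∀ h ∈ H, h v ≠ w) →
    Few (k + m + 1) H P → ¬ Few m (figH H w ι') (fig w n' ι' P) →
      Few k (figH H v ι) (fig v n ι P)

/-- **N2** (uses `S_FACES`, `S_G1`, `S_G2`). A `Good` simplex or cross-polytope is vertex transitive: two vertices have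
a common neighbour (dimension at least 3), so they are equivalent by `Good`. -/
def S_N2 : Prop := ∀ (n : ℕ) (P : Set (E (n + 1))) (H : Subgroup (E (n + 1) ≃ₗᵢ[ℝ] E (n + 1))),
  2 ≤ n → IsPolytope P → Pres H P → Good P H → RegS P ∨ RegO P → PT 1 H P

/-- **N5** (uses `S_FACES`, `S_VF`, `S_NB`, `S_SH`, `S_TR`). `v, w` adjacent. A chain `F_1 ⊂ F_2 ⊂ ⋯` through `w` with the edge
`F_1 = [w, v']` is a chain through `v'`; `v'` is equivalent to `v` (`PT 1` at `w`). An `h` with `h v = v` which maps the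
edge `[v, w]` to itself fixes `w`. -/
def S_N5 : Prop := ∀ (d : ℕ) (P : Set (E (d + 1))) (H : Subgroup (E (d + 1) ≃ₗᵢ[ℝ] E (d + 1)))
    (v n w n' : E (d + 1)) (ι ι' : E d →ₗᵢ[ℝ] E (d + 1)) (j : ℕ),
  IsPolytope P → Pres H P → Dat P H v n ι → Dat P H w n' ι' → Adj P w v →
    PT (j + 1) (figH H v ι) (fig v n ι P) → PT 1 (figH H w ι') (fig w n' ι' P) →
      PT (j + 1) (figH H w ι') (fig w n' ι' P)

/-- **N6** (uses `S_FACES`, `S_EDGE`, `S_NB`, `S_CONE`). A vertex `w` with a transitive figure has no neighbour of type C.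
Proof. By `PT 1` all neighbours `v'` of `w` are of type C with the same `g` (image under `H`), `‖v' - w‖ = l` and
`⟪v' - w, n⟫` are constant. For a corner `Cor P w v z`: there is `y` with `Cor P v w y` and (`S_EDGE`) `z - v = α (w - v) + β (y - v)`,
`α, β ≥ 0`, so `⟪z - v, w - v⟫ ≥ g ‖z - v‖ ‖w - v‖`; the same at `z`. With `a = v - w`, `b = z - w`: `‖b - a‖² = 2 l² - 2 ⟪a, b⟫` and
`l² - ⟪a, b⟫ ≥ g l ‖b - a‖`, so `⟪a, b⟫ ≤ (1 - 2 g²) l²`, `2 g² - 1 > 1/2` as `g > 1 - 2/D`, `D ≥ 15`. In the figure at `w` all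
vertices have the same norm `ρ > 0`, adjacent ones have `⟪x, x'⟫ ≤ (1 - 2 g²) ρ²` (`S_NB`), by `S_CONE` all different ones
(`x' - x = ∑ λ (y - x)`, `∑ λ ≥ 1`); three of them give `‖x + x' + x''‖² < 0`. The figure has three vertices. -/
def S_N6 : Prop := ∀ (D : ℕ) (P : Set (E (D + 1))) (H : Subgroup (E (D + 1) ≃ₗᵢ[ℝ] E (D + 1)))
    (w n v : E (D + 1)) (ι : E D →ₗᵢ[ℝ] E (D + 1)) (g : ℝ), 15 ≤ D → IsPolytope P → Pres H P →
  Dat P H w n ι → Adj P w v → LocC P v g → PT 1 (figH H w ι) (fig w n ι P) → False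

/-- `LL` with `L` levels -/
def LLG (L N₀ : ℕ) : Prop := ∀ (n : ℕ), N₀ ≤ n → ∀ (P : Set (E (n + 1)))
    (H : Subgroup (E (n + 1) ≃ₗᵢ[ℝ] E (n + 1))), IsPolytope P → Pres H P → PT L H P → Reg P

/-- `MK` for groups which are not transitive -/
def MNT (k N : ℕ) : Prop := ∀ (n : ℕ), N ≤ n → ∀ (P : Set (E (n + 1)))
    (H : Subgroup (E (n + 1) ≃ₗᵢ[ℝ] E (n + 1))), IsPolytope P → Pres H P → Few k H P → NT P H →
      Good P H

/-- **N4.** (uses `S_FACES`, `S_VF`, `S_INV`, `S_IOTA`, `S_TR`, `S_LOCC`, `S_C2`, `S_N2`). Induction on `j`. `P` is `Good` by `MK`, so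
transitive on the vertices (`N2`). The figure is `Few m`, so `Good`; it is not a cube (otherwise all vertices are of type
C by `S_LOCC`, against `S_C2`), so the induction hypothesis gives `PT j` for it, and `S_TR` (iii) `PT (j + 1)`. -/
def S_N4 : Prop := ∀ (m N : ℕ), 9 ≤ N → MK m N → ∀ (j n : ℕ), N + j ≤ n → ∀ (P : Set (E (n + 1)))
    (H : Subgroup (E (n + 1) ≃ₗᵢ[ℝ] E (n + 1))), IsPolytope P → Pres H P → Few m H P →
      RegS P ∨ RegO P → PT (j + 1) H P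

/-- **UP** (as `aj`). -/
def S_UP : Prop := ∀ (k N L N₀ : ℕ), 9 ≤ N → LLG (L + 1) N₀ → N₀ ≤ N + L → MNT k N → MK k (N + L)

/-- **ST** (assembly, helper36). `N₁`: `MK L N₁`. -/
def S_ST : Prop := ∀ (k N L N₀ N₁ : ℕ), 15 ≤ N → N₀ ≤ N → N₁ + L ≤ N → 9 ≤ N₁ → LLG (L + 1) N₀ →
  MK L N₁ → (∀ k' ≤ k, k' + L ≤ k → MK k' N) → MNT k N → MNT (k + 1) (N + 1)

end Pool.Agent.T9h36.N1
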