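import Pool.Agent.T9h36.N1.Spec

/-!
# Project NK, slope 1: the step
-/

set_option autoImplicit false

open Set
open scoped RealInnerProductSpace

namespace Pool.Agent.T9h36.N1

open Pool.Agent.T9h98.DC Pool.Agent.T9h98.NK Pool.Agent.T9h44.NK Pool.Agent.T9h46.NK

theorem few_mono {d : ℕ} {P : Set (E d)} {H : Subgroup (E d ≃ₗᵢ[ℝ] E d)} {k m : ℕ} (h : k ≤ m)
    (hF : Few k H P) : Few m H P := by
  intro Φ
  have h1 : k + 1 ≤ m + 1 := by omega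
  obtain ⟨i, j, hij, g, hg, h2⟩ := hF (fun i => Φ (Fin.castLE h1 i))
  exact ⟨Fin.castLE h1 i, Fin.castLE h1 j, fun e => hij (Fin.castLE_injective _ e), g, hg, h2⟩

theorem mk_mono {k k' N N' : ℕ} (hk : k' ≤ k) (hN : N ≤ N') (h : MK k N) : MK k' N' :=
  fun n hn P H hP hH hFew => h n (hN.trans hn) P H hP hH (few_mono hk hFew)

/-- vertex transitivity gives `PT 1` -/
theorem pt_one (hF : S_FACES) {d : ℕ} {P : Set (E d)} {H : Subgroup (E d ≃ₗᵢ[ℝ] E d)}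
    (hP : IsPolytope P) (h : ∀ v w, Vx P v → Vx P w → ∃ g ∈ H, g v = w) : PT 1 H P := by
  intro Φ Ψ
  obtain ⟨-, -, -, -, -, -, h7, -, -, -⟩ := hF d P hP.1
  obtain ⟨v, hv⟩ := h7 _ (Φ.isFace 0) (Φ.dim 0)
  obtain ⟨w, hw⟩ := h7 _ (Ψ.isFace 0) (Ψ.dim 0)
  have hv' : Vx P v := by
    have := Φ.isFace 0
    rw [hv] at this
    exact this
  have hw' : Vx P w := by
    have := Ψ.isFace 0
    rw [hw] at this
    exact this
  obtain ⟨g, hg, hgv⟩ := h v w hv' hw'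
  refine ⟨g, hg, fun i => ?_⟩
  have hi : i = 0 := Subsingleton.elim _ _
  subst hi
  rw [hv, hw, image_singleton, hgv]

theorem dat (hI : S_INV) (hO : S_IOTA) {d : ℕ} {P : Set (E (d + 1))}
    {H : Subgroup (E (d + 1) ≃ₗᵢ[ℝ] E (d + 1))} (hP : IsPolytope P) (hH : Pres H P) (v : E (d + 1))
    (hv : Vx P v) : ∃ (a : E (d + 1)) (ι : E d →ₗᵢ[ℝ] E (d + 1)), Dat P H v a ι := by
  obtain ⟨a, ha, hs, hfix⟩ := hI (d + 1) P v H hP.1 hv (exists_ne hP v) hH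
  obtain ⟨ι, hι, -⟩ := hO d a ha
  exact ⟨a, ι, hv, hs, ha, hι, hfix⟩

/-- an isometry of `P` maps edges to edges -/
theorem face_image {d : ℕ} {P F : Set (E d)} (h : E d ≃ₗᵢ[ℝ] E d) (hP : h '' P = P)
    (hF : IsFace P F) : IsFace P (h '' F) := by
  obtain ⟨hne, hex⟩ := hF
  refine ⟨hne.image _, ?_⟩
  intro _
  obtain ⟨l, hl⟩ := hex hne
  refine ⟨l.comp (h.symm : E d →L[ℝ] E d), ?_⟩
  ext y
  constructor
  · rintro ⟨x, hx, rfl⟩
    rw [hl] at hx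
    refine ⟨by rw [← hP]; exact ⟨x, hx.1, rfl⟩, fun z hz => ?_⟩
    rw [← hP] at hz
    obtain ⟨z', hz', rfl⟩ := hz
    change l (h.symm (h z')) ≤ l (h.symm (h x))
    rw [h.symm_apply_apply, h.symm_apply_apply]
    exact hx.2 z' hz'
  · rintro ⟨hy, hy2⟩
    rw [← hP] at hy
    obtain ⟨x, hx, rfl⟩ := hy
    refine ⟨x, ?_, rfl⟩
    rw [hl]
    refine ⟨hx, fun z hz => ?_⟩
    have := hy2 (h z) (by rw [← hP]; exact ⟨z, hz, rfl⟩)
    change l (h.symm (h z)) ≤ l (h.symm (h x)) at this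
    rwa [h.symm_apply_apply, h.symm_apply_apply] at this

theorem adj_image {d : ℕ} {P : Set (E d)} (h : E d ≃ₗᵢ[ℝ] E d) (hP : h '' P = P) {v w : E d}
    (hA : Adj P v w) : Adj P (h v) (h w) := by
  refine ⟨fun e => hA.1 (h.injective e), ?_⟩
  have h1 := face_image h hP hA.2
  have h2 : h '' segment ℝ v w = segment ℝ (h v) (h w) :=
    image_segment ℝ h.toLinearEquiv.toLinearMap.toAffineMap v w
  rwa [h2] at h1

/-- the neighbours of `w` are equivalent -/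
theorem nb_trans (hNB : S_NB) {d : ℕ} {P : Set (E (d + 1 + 1))}
    {H : Subgroup (E (d + 1 + 1) ≃ₗᵢ[ℝ] E (d + 1 + 1))} (hP : IsPolytope P) (hH : Pres H P)
    {w a : E (d + 1 + 1)} {ι : E (d + 1) →ₗᵢ[ℝ] E (d + 1 + 1)} (hD : Dat P H w a ι)
    (h1 : PT 1 (figH H w ι) (fig w a ι P)) (y y' : E (d + 1 + 1)) (hy : Adj P w y)
    (hy' : Adj P w y') : ∃ h ∈ H, h w = w ∧ h y = y' := by
  obtain ⟨hw, hs, ha, hι, hfix⟩ := hD
  obtain ⟨n1, n2, n3, -⟩ := hNB (d + 1) P w a ι hP hw hs ha hι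
  obtain ⟨x, hx, hpx⟩ := n1 y hy
  obtain ⟨x', hx', hpx'⟩ := n1 y' hy'
  obtain ⟨k, ⟨h, hh, hhw, hk⟩, hkx⟩ := vtrans h1 x x' hx hx'
  refine ⟨h, hh, hhw, ?_⟩
  have hA : Adj P w (h y) := by
    have := adj_image h (hH h hh) hy
    rwa [hhw] at this
  have hpr : Pr w a ι (h y) x' := by
    obtain ⟨t, ht, e⟩ := hpx
    refine ⟨t, ht, ?_⟩
    have : h y - w = h (y - w) := by rw [map_sub, hhw]
    rw [this, e, map_smul, map_add, hfix h hh hhw, ← hk, hkx]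
  exact (n3 (h y) y' x' x' hA hy' hpr hpx').1 rfl

theorem st (hF : S_FACES) (hVF : S_VF) (hI : S_INV) (hO : S_IOTA) (hNB : S_NB) (hT : S_TR)
    (hS : S_STEP) (hCO : S_CONN) (hLC : S_LOCC) (h1 : S_N1) (h4 : S_N4)
    (h5 : S_N5) (h6 : S_N6) : S_ST := by
  intro k N L N₀ N₁ hN15 hN0 hN1 hN19 hLL hML hMK hMNT n hn P H hP hH hFew hNT
  obtain ⟨m, rfl⟩ : ∃ m, n = m + 1 := ⟨n - 1, by omega⟩
  apply hS (m + 1) P H (by omega) hP hH
  intro w hw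
  obtain ⟨a, ι, hD⟩ := dat hI hO hP hH w hw
  have hD' := hD
  obtain ⟨-, hs, ha, hι, hfix⟩ := hD'
  refine ⟨a, ι, hs, ha, hι, hfix, ?_⟩
  by_contra hnot
  have hex : ∀ v, Vx P v → ∃ u, Vx P u ∧ ∀ h ∈ H, h v ≠ u := by
    intro v _
    by_contra hcon
    push Not at hcon
    obtain ⟨v₀, w₀, hv₀, hw₀, hne⟩ := hNT
    obtain ⟨g1, hg1, e1⟩ := hcon v₀ hv₀
    obtain ⟨g2, hg2, e2⟩ := hcon w₀ hw₀
    apply hne (g2 * g1⁻¹) (H.mul_mem hg2 (H.inv_mem hg1))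
    change g2 (g1.symm v₀) = w₀
    rw [← e1, g1.symm_apply_apply, e2]
  obtain ⟨t1, -, -, -, t5⟩ := hT (m + 1) P H w a ι hP hH hw hs ha hι hfix
  have hfig := (hVF (m + 1) P w a ι hP hw hs ha hι).1
  have hFw := t5 k hFew (hex w hw)
  have hP1 : PT 1 (figH H w ι) (fig w a ι P) := by
    refine pt_one hF hfig ?_
    by_contra hcon
    push Not at hcon
    obtain ⟨x, y, hx, hy, hxy⟩ := hcon
    exact hnot (hMNT m (by omega) _ _ hfig t1 hFw ⟨x, y, hx, hy, hxy⟩)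
  -- a neighbour
  obtain ⟨v, hwv⟩ : ∃ v, Adj P w v := by
    obtain ⟨-, n2, -, -⟩ := hNB (m + 1) P w a ι hP hw hs ha hι
    obtain ⟨-, -, -, -, f5, -⟩ := hF (m + 1) _ hfig.1
    obtain ⟨-, x, hx⟩ := f5 (hfig.2.mono interior_subset)
    obtain ⟨y, hy, -⟩ := n2 x hx
    exact ⟨y, hy⟩
  obtain ⟨-, -, -, -, -, -, -, -, f9, -⟩ := hF (m + 1 + 1) P hP.1
  have hv : Vx P v := (f9 w v hwv).2.1
  have hvw : ∀ h ∈ H, h v ≠ w := by
    intro h hh e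
    obtain ⟨v₀, w₀, hv₀, hw₀, hne⟩ := hNT
    have hcl : ∀ u, Vx P u → u ∈ {u | ∃ g ∈ H, g w = u} := by
      refine hCO (m + 1) P hP _ ⟨w, ⟨1, H.one_mem, rfl⟩, hw⟩ ?_
      rintro u ⟨g, hg, rfl⟩ y _ hy
      have hy2 : Adj P w (g⁻¹ y) := by
        have := adj_image (g⁻¹) (hH _ (H.inv_mem hg)) hy
        have e2 : (g⁻¹ : E (m + 1 + 1) ≃ₗᵢ[ℝ] E (m + 1 + 1)) (g w) = w := g.symm_apply_apply w
        rwa [e2] at this
      obtain ⟨q, hq, -, hqv⟩ := nb_trans hNB hP hH hD hP1 v (g⁻¹ y) hwv hy2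
      refine ⟨g * (q * h⁻¹), H.mul_mem hg (H.mul_mem hq (H.inv_mem hh)), ?_⟩
      change g (q (h.symm w)) = y
      rw [← e, h.symm_apply_apply, hqv]
      exact g.apply_symm_apply y
    obtain ⟨g1, hg1, e1⟩ := hcl v₀ hv₀
    obtain ⟨g2, hg2, e2⟩ := hcl w₀ hw₀
    apply hne (g2 * g1⁻¹) (H.mul_mem hg2 (H.inv_mem hg1))
    change g2 (g1.symm v₀) = w₀
    rw [← e1, g1.symm_apply_apply, e2]
  obtain ⟨a', ι', hDv⟩ := dat hI hO hP hH v hv
  have hDv' := hDv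
  obtain ⟨-, hs', ha', hι', hfix'⟩ := hDv'
  obtain ⟨t1', -, -, -, t5'⟩ := hT (m + 1) P H v a' ι' hP hH hv hs' ha' hι' hfix'
  have hfig' := (hVF (m + 1) P v a' ι' hP hv hs' ha' hι').1
  have hFv : Few L (figH H v ι') (fig v a' ι' P) := by
    rcases le_or_gt L k with hkL | hkL
    · have hnF : ¬ Few (k - L) (figH H w ι) (fig w a ι P) := fun hf =>
        hnot (hMK (k - L) (by omega) (by omega) m (by omega) _ _ hfig t1 hf)
      refine h1 (m + 1) P H v a' w a ι' ι L (k - L) hP hH hDv hD hvw ?_ hnF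
      have : L + (k - L) + 1 = k + 1 := by omega
      rw [this]
      exact hFew
    · exact few_mono hkL.le (t5' k hFew (hex v hv))
  have hGv : Good (fig v a' ι' P) (figH H v ι') := hML m (by omega) _ _ hfig' t1' hFv
  have hcases : RegS (fig v a' ι' P) ∨ RegO (fig v a' ι' P) := by
    rcases hGv.1 with h | h | h
    · exact Or.inl h
    · exact Or.inr h
    · exfalso
      obtain ⟨g, hg⟩ := hLC (m + 1) P H v a' ι' (by omega) hP hH hv ⟨hs', ha', hι', hfix', hGv⟩ h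
      exact h6 (m + 1) P H w a v ι g (by omega) hP hH hD hwv hg hP1
  have hPv : PT (L + 1) (figH H v ι') (fig v a' ι' P) :=
    h4 L N₁ hN19 hML L m (by omega) _ _ hfig' t1' hFv hcases
  have hPw := h5 (m + 1) P H v a' w a ι' ι L hP hH hDv hD hwv hPv hP1
  have hR : Reg (fig w a ι P) := hLL m (by omega) _ _ hfig t1 hPw
  refine hnot ⟨hR, fun x y y' hy hy' => ?_⟩
  obtain ⟨-, -, -, -, -, -, -, -, g9, -⟩ := hF (m + 1) _ hfig.1
  exact vtrans hP1 y y' (g9 x y hy).2.1 (g9 x y' hy').2.1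

end Pool.Agent.T9h36.N1
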